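import Pool.Agent.N181.TC.Main
import Pool.Agent.N181.P8.Tower

/-!
Coverings of the line for which the six points of bad reduction are inert.
-/

set_option autoImplicit false
set_option linter.all false

open Polynomial IsDedekindDomain WeierstrassCurve WeierstrassCurve.Affine
open scoped Classical

namespace Pool.Agent.N181.TC

open Pool.Agent.N181.P3 (hb hb_map hb_sum)
open Pool.Agent.N181.P8 (TateQ deg_dvd irr_of_coprime exists_tower)
open Pool.Agent.X243.Gen (pb pb_sum pb_mul pb_C pb_one pb_pow pb_lin pb_map pb_frac pb_ne exists_psi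
  natDegree_pb root_of_prime form_cop natDegree_pb_le)
open Pool.Agent.TH115.GD

section defs

variable {k : Type} [Field k]

/-- The map `s = q(t) / r(t)` of odd degree `n` is inert over the places of bad reduction of
`y² = x (x - a) (x - b)`: for the irreducible factors `π` of `a b (a - b)` the polynomial
`pb q r π = r ^ (deg π) π(q / r)` is irreducible and separable of degree `n deg π`; if the place at infinity is
bad (if the degree of `a b (a - b)` is five) then `r` is irreducible and separable of degree `n`. -/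
structure CoverF (q r : k[X]) (n : ℕ) (a b : k[X]) : Prop where
  co : IsCoprime q r
  qp : 0 < q.natDegree
  qn : q.natDegree ≤ n
  rn : r.natDegree ≤ n
  odd : ¬ 2 ∣ n
  fin : ∀ π : k[X], Irreducible π → π ∣ a * b * (a - b) →
    Irreducible (pb q r π) ∧ (pb q r π).Separable ∧ (pb q r π).natDegree = n * π.natDegree
  inf : (a * b * (a - b)).natDegree ≤ 5 → Irreducible r ∧ r.Separable ∧ r.natDegree = n

end defs

section overM

variable {k M : Type} [Field k] [Field M] [Algebra k M] [FiniteDimensional k M]

/-- The form of a root. -/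
theorem form_overF {q r : k[X]} {n : ℕ} (hn : Nat.Coprime n (Module.finrank k M))
    (hco : IsCoprime q r) (hq : 0 < q.natDegree) (hqn : q.natDegree ≤ n) (hrn : r.natDegree ≤ n)
    {π : k[X]} (h1 : Irreducible (pb q r π)) (h2 : (pb q r π).Separable)
    (h3 : (pb q r π).natDegree = n * π.natDegree) (hπ0 : π ≠ 0)
    {ξ : M} (hξ : (π.map (algebraMap k M)).IsRoot ξ) :
    Irreducible (q.map (algebraMap k M) - C ξ * r.map (algebraMap k M)) ∧
      (q.map (algebraMap k M) - C ξ * r.map (algebraMap k M)).Separable ∧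
      (q.map (algebraMap k M) - C ξ * r.map (algebraMap k M)).natDegree = n := by
  have inj := (algebraMap k M).injective
  set q1 := q.map (algebraMap k M) with hq1
  set r1 := r.map (algebraMap k M) with hr1
  have hn0 : 0 < n := hq.trans_le hqn
  have hpi0 : π.map (algebraMap k M) ≠ 0 := (Polynomial.map_ne_zero_iff inj).2 hπ0
  obtain ⟨π', hπ'⟩ := dvd_iff_isRoot.2 hξ
  have hπ'0 : π' ≠ 0 := by
    rintro rfl
    rw [mul_zero] at hπ'
    exact hpi0 hπ'
  have hd1 : π.natDegree = 1 + π'.natDegree := by
    have := congrArg natDegree hπ'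
    rw [natDegree_map, natDegree_mul (X_sub_C_ne_zero ξ) hπ'0, natDegree_X_sub_C] at this
    exact this
  set F := q1 - C ξ * r1 with hF
  have hpb1 : F * pb q1 r1 π' = (pb q r π).map (algebraMap k M) := by
    rw [pb_map, hπ', pb_mul, pb_lin]
  have hρ10 : (pb q r π).map (algebraMap k M) ≠ 0 := (Polynomial.map_ne_zero_iff inj).2 h1.ne_zero
  have hF0 : F ≠ 0 := by
    intro h0
    rw [h0, zero_mul] at hpb1
    exact hρ10 hpb1.symm
  have hP0 : pb q1 r1 π' ≠ 0 := by
    intro h0
    rw [h0, mul_zero] at hpb1
    exact hρ10 hpb1.symm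
  -- the degree
  have hFn : F.natDegree = n := by
    have h4 := congrArg natDegree hpb1
    rw [natDegree_mul hF0 hP0, natDegree_map, h3, hd1] at h4
    have h5 : (pb q1 r1 π').natDegree ≤ n * π'.natDegree := natDegree_pb_le
      (by rw [hq1, natDegree_map]; exact hqn) (by rw [hr1, natDegree_map]; exact hrn) π'
    have h6 : F.natDegree ≤ n := by
      refine (natDegree_sub_le _ _).trans (max_le (by rw [hq1, natDegree_map]; exact hqn) ?_)
      exact (natDegree_C_mul_le _ _).trans (by rw [hr1, natDegree_map]; exact hrn)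
    rw [mul_add, mul_one] at h4
    omega
  have hFs : F.Separable := (h2.map (f := algebraMap k M)).of_dvd ⟨_, hpb1.symm⟩
  refine ⟨?_, hFs, hFn⟩
  have hFu : ¬ IsUnit F := by
    intro h
    have := natDegree_eq_zero_of_isUnit h
    omega
  obtain ⟨g, hg, hgF⟩ := WfDvdMonoid.exists_irreducible_factor hFu hF0
  have hgρ : g ∣ (pb q r π).map (algebraMap k M) := by
    rw [← hpb1]
    exact hgF.mul_right _
  have hfg : n ∣ g.natDegree := by
    have h4 := deg_dvd h1 hg hgρ
    rw [h3] at h4
    have h5 : n ∣ g.natDegree * Module.finrank k M := (dvd_mul_right n _).trans h4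
    exact Nat.Coprime.dvd_of_dvd_mul_right hn h5
  have hassoc : Associated g F := by
    apply associated_of_dvd_of_natDegree_le hgF hF0
    rw [hFn]
    exact Nat.le_of_dvd hg.natDegree_pos hfg
  exact hassoc.irreducible hg

theorem fib_overF {q r a b : k[X]} {n : ℕ} (hn : Nat.Coprime n (Module.finrank k M))
    (hC : CoverF q r n a b) (hB : Full2 a b) :
    FibF (q.map (algebraMap k M)) (r.map (algebraMap k M)) n
      (a.map (algebraMap k M)) (b.map (algebraMap k M)) := by
  refine ⟨?_, ?_⟩
  · intro ξ hξ
    rw [map_P] at hξ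
    have hint : IsIntegral k ξ := IsIntegral.of_finite k ξ
    have hd : minpoly k ξ ∣ a * b * (a - b) := by
      apply minpoly.dvd
      rw [← eval_map_algebraMap]
      exact hξ
    have hirr := minpoly.irreducible hint
    obtain ⟨h1, h2, h3⟩ := hC.fin _ hirr hd
    refine form_overF hn hC.co hC.qp hC.qn hC.rn h1 h2 h3 hirr.ne_zero ?_
    rw [IsRoot.def, eval_map_algebraMap]
    exact minpoly.aeval k ξ
  · intro h
    rw [map_P, natDegree_map] at h
    obtain ⟨h1, h2, h3⟩ := hC.inf h
    refine ⟨irr_of_coprime h1 (by rw [h3]; exact hn), h2.map, by rw [natDegree_map]; exact h3⟩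

end overM

section main

variable {k L L' K F : Type} [Field k] [Field L] [Field L'] [Field K] [Field F]
  [Algebra k L] [FiniteDimensional k L] [Algebra L L']
  [Algebra L[X] K] [Algebra L'[X] F] [IsFractionRing L'[X] F] [Algebra K F]

set_option synthInstance.maxHeartbeats 400000 in
theorem stable_coprime {n : ℕ} (hn : ¬ 2 ∣ n) :
    Stable2 (fun M : IntermediateField L L' => FiniteDimensional L M ∧
      Nat.Coprime n (Module.finrank L M)) where
  fin := fun M h => h.1
  step := by
    rintro M ⟨h1, h2⟩ x G hG hG2 hx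
    have hint : IsIntegral M x := IsAlgebraic.isIntegral ⟨G, hG, hx⟩
    let E : IntermediateField M L' := IntermediateField.adjoin M {x}
    have hE : FiniteDimensional M E := IntermediateField.adjoin.finiteDimensional hint
    have h3 : Module.finrank M E ≤ 2 := by
      rw [IntermediateField.adjoin.finrank hint]
      exact (natDegree_le_of_dvd (minpoly.dvd M x hx) hG).trans hG2
    have h4 : 0 < Module.finrank M E := Module.finrank_pos
    refine ⟨E.restrictScalars L, ?_, ⟨?_, ?_⟩, ?_⟩
    · intro y hy
      rw [IntermediateField.mem_restrictScalars]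
      exact E.algebraMap_mem ⟨y, hy⟩
    · exact (Module.Finite.trans M E : Module.Finite L E)
    · have h5 : Module.finrank L (E.restrictScalars L) = Module.finrank L M * Module.finrank M E :=
        (Module.finrank_mul_finrank L M E).symm
      rw [h5]
      refine Nat.Coprime.mul_right h2 ?_
      obtain h | h : Module.finrank M E = 1 ∨ Module.finrank M E = 2 := by omega
      · rw [h]; exact Nat.coprime_one_right n
      · rw [h]
        exact (Nat.coprime_comm.1 ((Nat.Prime.coprime_iff_not_dvd Nat.prime_two).2 hn))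
    · rw [IntermediateField.mem_restrictScalars]
      exact IntermediateField.mem_adjoin_simple_self M x

theorem mainC (hT : IsTower L L' K F) {a b q r : k[X]} {n : ℕ} (hB : Full2 a b)
    (hC : CoverF q r n a b) (hn : Nat.Coprime n (Module.finrank k L)) :
    TateQ (F := F) 2 L' (surfF K (q.map (algebraMap k L)) (r.map (algebraMap k L))
      (a.map (algebraMap k L)) (b.map (algebraMap k L))) := by
  haveI := hT.sep
  refine tate_full (n := n) hT (hB.map (algebraMap k L)) (stable_coprime hC.odd)
    ⟨inferInstance, by rw [IntermediateField.finrank_bot]; exact Nat.coprime_one_right n⟩ hC.odd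
    (hC.co.map (mapRingHom (algebraMap k L))) ?_
  rintro M ⟨hMf, hMn⟩ -
  letI : Algebra k M := ((algebraMap L M).comp (algebraMap k L)).toAlgebra
  haveI : IsScalarTower k L M := IsScalarTower.of_algebraMap_eq fun x => rfl
  have ekM : algebraMap k M = (algebraMap L M).comp (algebraMap k L) := rfl
  haveI : FiniteDimensional k M := Module.Finite.trans L M
  have hnM : Nat.Coprime n (Module.finrank k M) := by
    rw [← Module.finrank_mul_finrank k L M]
    exact Nat.Coprime.mul_right hn hMn
  have hF := fib_overF (M := M) hnM hC hB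
  rw [ekM, ← Polynomial.map_map, ← Polynomial.map_map, ← Polynomial.map_map,
    ← Polynomial.map_map] at hF
  exact hF

end main

section tower

variable {k : Type} [Field k]

theorem coverF_pow {a b : k[X]} (hB : Full2 a b) (h6 : 6 ≤ (a * b * (a - b)).natDegree)
    (hs : (a * b * (a - b)).Splits) {n : ℕ} (h2 : ¬ 2 ∣ n) (hk : (n : k) ≠ 0) {c : k}
    (hc : ∀ ξ, (a * b * (a - b)).IsRoot ξ → ∀ ℓ : ℕ, ℓ.Prime → ℓ ∣ n → ∀ y : k, y ^ ℓ ≠ ξ - c)
    (hc' : ∀ ξ, (a * b * (a - b)).IsRoot ξ → ξ ≠ c) :
    CoverF (X ^ n + C c) 1 n a b := by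
  have h0 := hB.sep.ne_zero
  have hn0 : n ≠ 0 := by
    rintro rfl
    exact hk Nat.cast_zero
  have hodd : Odd n := by
    rw [← Nat.not_even_iff_odd, even_iff_two_dvd]
    exact h2
  refine ⟨isCoprime_one_right, ?_, ?_, ?_, h2, ?_, fun h => by omega⟩
  · rw [natDegree_X_pow_add_C]; exact Nat.pos_of_ne_zero hn0
  · rw [natDegree_X_pow_add_C]
  · rw [natDegree_one]; exact Nat.zero_le _
  · intro π hπ hd
    obtain ⟨ξ, hξ⟩ := exists_root_of_degree_eq_one
      ((hs.of_dvd h0 hd).degree_eq_one_of_irreducible hπ)
    obtain ⟨x, hx⟩ := (irreducible_X_sub_C ξ).associated_of_dvd hπ (dvd_iff_isRoot.2 hξ)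
    obtain ⟨u, hu, hux⟩ := Polynomial.isUnit_iff.1 x.isUnit
    have e : π = C u * (X - C ξ) := by rw [← hx, ← hux, mul_comm]
    have e1 : π.natDegree = 1 := by rw [e, natDegree_C_mul hu.ne_zero, natDegree_X_sub_C]
    have hroot : (a * b * (a - b)).IsRoot ξ := hξ.dvd hd
    have epb : pb (X ^ n + C c) 1 π = C u * (X ^ n - C (ξ - c)) := by
      rw [e, pb_mul, pb_C, pb_lin, C_sub]
      ring
    have hne : ξ - c ≠ 0 := sub_ne_zero.2 (hc' ξ hroot)
    have hcu : IsUnit (C u : k[X]) := isUnit_C.2 hu
    rw [epb, e1, mul_one]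
    refine ⟨?_, ?_, ?_⟩
    · exact (irreducible_isUnit_mul hcu).2
        (X_pow_sub_C_irreducible_of_odd hodd fun p hp hpn y => hc ξ hroot p hp hpn y)
    · exact (separable_X_pow_sub_C _ hk hne).unit_mul hcu
    · rw [natDegree_C_mul hu.ne_zero, natDegree_X_pow_sub_C]

end tower

end Pool.Agent.N181.TC
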