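import Pool.Agent.N181.TC.Main

/-!
Pullbacks whose forms have full symmetric Galois groups, over all extensions with solvable constants.
-/

set_option autoImplicit false
set_option linter.all false

open Polynomial IsDedekindDomain WeierstrassCurve WeierstrassCurve.Affine
open scoped Classical

namespace Pool.Agent.N181.TC

open Pool.Agent.N181.TA (Five Stable stable_five five_bot five_irr)
open Pool.Agent.N181.P3 (hb hb_map hb_sum)
open Pool.Agent.N181.P8 (TateQ)
open Pool.Agent.X243.Gen (FF solvM solvM_normal mem_solvM solvM_not_splits)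
open Pool.Agent.TH115.GD

section forms

variable {k : Type} [Field k]

/-- The forms of the places of bad reduction: the polynomials `q - ξ r` for the roots `ξ` of
`a b (a - b)`, and `r` if the degree of this polynomial is five (so that the place at infinity is bad). -/
def FormF (a b q r : k[X]) (f : k[X]) : Prop :=
  (∃ ξ, (a * b * (a - b)).IsRoot ξ ∧ f = q - C ξ * r) ∨ ((a * b * (a - b)).natDegree ≤ 5 ∧ f = r)

theorem fibF_five {a b q r : k[X]} {n : ℕ} (hB : Full2 a b)
    (hs : (a * b * (a - b)).Splits) (h5 : 5 ≤ n) (hf : ∀ f, FormF a b q r f → FF n f)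
    {L L' : Type} [Field L] [Field L'] [Algebra k L] [Algebra L L'] [Algebra k L']
    [IsScalarTower k L L'] [IsSepClosed L'] {M : IntermediateField L L'}
    (hM : ∀ f, FormF a b q r f → Five M (f.rootSet L')) :
    FibF ((q.map (algebraMap k L)).map (algebraMap L M))
      ((r.map (algebraMap k L)).map (algebraMap L M)) n
      ((a.map (algebraMap k L)).map (algebraMap L M))
      ((b.map (algebraMap k L)).map (algebraMap L M)) := by
  set φ : k →+* M := (algebraMap L M).comp (algebraMap k L) with hφ
  have em : ∀ p : k[X], (p.map (algebraMap k L)).map (algebraMap L M) = p.map φ := fun p => by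
    rw [Polynomial.map_map]
  have key : ∀ f, FormF a b q r f → Irreducible (f.map φ) ∧ (f.map φ).Separable ∧
      (f.map φ).natDegree = n := by
    intro f h
    obtain ⟨f1, f2, f3⟩ := hf f h
    refine ⟨?_, f2.map, by rw [natDegree_map, f1.2]⟩
    rw [← em]
    exact five_irr f2 (by rw [f1.2]; exact h5) L L' (hM f h)
  rw [em, em, em, em]
  refine ⟨?_, ?_⟩
  · intro ξ hξ
    rw [map_P] at hξ
    obtain ⟨x, hx⟩ := hs.mem_range_of_isRoot hB.sep.ne_zero hξ
    have hx' : (a * b * (a - b)).IsRoot x := by
      rw [← hx, IsRoot.def, eval_map, eval₂_at_apply] at hξ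
      exact (map_eq_zero_iff φ φ.injective).1 hξ
    have e : (q - C x * r).map φ = q.map φ - C ξ * r.map φ := by
      rw [Polynomial.map_sub, Polynomial.map_mul, map_C, hx]
    rw [← e]
    exact key _ (Or.inl ⟨x, hx', rfl⟩)
  · intro h
    rw [map_P, natDegree_map] at h
    exact key _ (Or.inr ⟨h, rfl⟩)

end forms

section main

variable {k L L' K F : Type} [Field k] [Field L] [Field L'] [Field K] [Field F]
  [Algebra k L] [Algebra L L'] [Algebra k L'] [IsScalarTower k L L']
  [Algebra L[X] K] [Algebra L'[X] F] [IsFractionRing L'[X] F] [Algebra K F]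

theorem mainF (hT : IsTower L L' K F) {a b q r : k[X]} {n : ℕ} (hB : Full2 a b)
    (hs : (a * b * (a - b)).Splits) (h5 : 5 ≤ n) (h2 : ¬ 2 ∣ n) (hco : IsCoprime q r)
    (hf : ∀ f, FormF a b q r f → FF n f)
    (M₀ : IntermediateField k L') [Normal k M₀]
    (hM₀ : ∀ x : L, IsSeparable k x → algebraMap L L' x ∈ M₀)
    (hns : ∀ f, FormF a b q r f → ¬ (f.map (algebraMap k M₀)).Splits) :
    TateQ (F := F) 2 L' (surfF K (q.map (algebraMap k L)) (r.map (algebraMap k L))
      (a.map (algebraMap k L)) (b.map (algebraMap k L))) := by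
  haveI := hT.sep
  haveI : IsSepClosed L' := IsSepClosure.sep_closed L
  obtain ⟨S, hS⟩ : ∃ S : Set (Set L'), S = {Z | ∃ f, FormF a b q r f ∧ Z = f.rootSet L'} := ⟨_, rfl⟩
  have hbot : FiniteDimensional L (⊥ : IntermediateField L L') ∧
      ∀ Z ∈ S, Five (⊥ : IntermediateField L L') Z := by
    refine ⟨inferInstance, ?_⟩
    rw [hS]
    rintro Z ⟨f, hff, rfl⟩
    obtain ⟨f1, f2, f3⟩ := hf f hff
    exact five_bot f2 (by rw [f1.2]; exact h5) f3 L L' M₀ hM₀ (hns f hff)
  refine tate_full (n := n) hT (hB.map (algebraMap k L)) (Stable.to2 (stable_five S)) hbot h2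
    (hco.map (mapRingHom (algebraMap k L))) ?_
  rintro M ⟨-, hM5⟩ -
  exact fibF_five (L' := L') (M := M) hB hs h5 hf (fun f hff => hM5 _ (by
    rw [hS]
    exact ⟨f, hff, rfl⟩))

/-- The same for solvable constants. -/
theorem mainF_solv (hT : IsTower L L' K F) {a b q r : k[X]} {n : ℕ} (hB : Full2 a b)
    (hs : (a * b * (a - b)).Splits) (h5 : 5 ≤ n) (h2 : ¬ 2 ∣ n) (hco : IsCoprime q r)
    (hf : ∀ f, FormF a b q r f → FF n f)
    (hM : ∀ x : L, IsSeparable k x → Group.IsSolvable (minpoly k x).Gal) :
    TateQ (F := F) 2 L' (surfF K (q.map (algebraMap k L)) (r.map (algebraMap k L))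
      (a.map (algebraMap k L)) (b.map (algebraMap k L))) := by
  haveI := hT.sep
  haveI : IsSepClosed L' := IsSepClosure.sep_closed L
  haveI := solvM_normal (k := k) L'
  exact mainF hT hB hs h5 h2 hco hf (solvM k L') (fun x hx => mem_solvM hx (hM x hx))
    (fun f h => solvM_not_splits L' (hf f h).2.1 (by rw [(hf f h).1.2]; exact h5) (hf f h).2.2)

end main

end Pool.Agent.N181.TC
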