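import Pool.Agent.N181.TC.Pull
import Pool.Agent.N181.P3.Ext

/-!
The Tate conjecture at 2 for pullbacks of the rational elliptic surfaces with full level two and six fibres of
type `I₂`.
-/

set_option autoImplicit false
set_option linter.all false

open Polynomial IsDedekindDomain WeierstrassCurve WeierstrassCurve.Affine
open scoped Classical

namespace Pool.Agent.N181.TC

open Pool.Agent.N181.TA (Five Stable stable_five five_bot five_irr)
open Pool.Agent.N181.P3 (hb hb_map hb_sum)
open Pool.Agent.N181.P8 (sep_map exists_lift finite_mid TateQ tate_desc)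
open Pool.Agent.N181.P9 (tateAt_two two_map)
open Pool.Agent.X243.Gen (FF solvM solvM_normal mem_solvM solvM_not_splits)
open Pool.Agent.TH115.GD

section stable

variable {L L' : Type} [Field L] [Field L'] [Algebra L L']

/-- A class of intermediate fields which is stable under adjoining roots of polynomials of degree at most
two. -/
structure Stable2 (St : IntermediateField L L' → Prop) : Prop where
  fin : ∀ M, St M → FiniteDimensional L M
  step : ∀ M, St M → ∀ (x : L') (G : M[X]), G ≠ 0 → G.natDegree ≤ 2 → aeval x G = 0 →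
    ∃ M' : IntermediateField L L', M ≤ M' ∧ St M' ∧ x ∈ M'

theorem Stable.to2 {St : IntermediateField L L' → Prop} (h : Stable St) : Stable2 St :=
  ⟨h.fin, fun M hM x G hG hd hx => h.step M hM x G hG (hd.trans (by norm_num)) hx⟩

theorem st2_set {St : IntermediateField L L' → Prop} (hSt : Stable2 St) (S : Finset L')
    (hS : ∀ x ∈ S, ∃ G : L[X], G ≠ 0 ∧ G.natDegree ≤ 2 ∧ aeval x G = 0) :
    ∀ M : IntermediateField L L', St M →
      ∃ M' : IntermediateField L L', M ≤ M' ∧ St M' ∧ ∀ x ∈ S, x ∈ M' := by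
  induction S using Finset.induction with
  | empty => exact fun M hM => ⟨M, le_rfl, hM, fun x hx => absurd hx (Finset.notMem_empty x)⟩
  | insert y S hy ih =>
    intro M hM
    obtain ⟨M1, h1, h2, h3⟩ := ih (fun x hx => hS x (Finset.mem_insert_of_mem hx)) M hM
    obtain ⟨G, hG, hG3, hGx⟩ := hS y (Finset.mem_insert_self y S)
    obtain ⟨M2, h4, h5, h6⟩ := hSt.step M1 h2 y (G.map (algebraMap L M1))
      ((Polynomial.map_ne_zero_iff (algebraMap L M1).injective).2 hG)
      (by rw [natDegree_map]; exact hG3) (by rw [aeval_map_algebraMap]; exact hGx)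
    refine ⟨M2, h1.trans h4, h5, fun x hx => ?_⟩
    rcases Finset.mem_insert.1 hx with rfl | hx
    · exact h6
    · exact h4 (h3 x hx)

/-- Square roots. -/
theorem st2_sqrt {St : IntermediateField L L' → Prop} (hSt : Stable2 St) [IsSepClosed L']
    (h2 : (2 : L') ≠ 0) {M : IntermediateField L L'} (hM : St M) (d : M) :
    ∃ (M' : IntermediateField L L') (h : M ≤ M'), St M' ∧
      ∃ δ : M', δ ^ 2 = IntermediateField.inclusion h d := by
  haveI : NeZero ((2 : ℕ) : L') := ⟨by exact_mod_cast h2⟩
  obtain ⟨x, hx⟩ := IsSepClosed.exists_pow_nat_eq (d : L') 2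
  obtain ⟨M', h, hM', hxM⟩ := hSt.step M hM x (X ^ 2 - C d)
    (X_pow_sub_C_ne_zero two_pos d) (by rw [natDegree_X_pow_sub_C]) (by
      rw [map_sub, map_pow, aeval_X, aeval_C, hx]
      exact sub_self _)
  refine ⟨M', h, hM', ⟨x, hxM⟩, Subtype.ext ?_⟩
  exact hx

end stable

section base

theorem map_P {k M : Type} [Field k] [Field M] (φ : k →+* M) (a b : k[X]) :
    a.map φ * b.map φ * (a.map φ - b.map φ) = (a * b * (a - b)).map φ := by
  rw [Polynomial.map_mul, Polynomial.map_mul, Polynomial.map_sub]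

theorem Full2.map {k M : Type} [Field k] [Field M] (φ : k →+* M) {a b : k[X]} (h : Full2 a b) :
    Full2 (a.map φ) (b.map φ) := by
  refine ⟨two_map φ h.two, by rw [natDegree_map]; exact h.da, by rw [natDegree_map]; exact h.db,
    ?_, ?_⟩
  · rw [map_P]
    exact h.sep.map
  · rw [map_P, natDegree_map]
    exact h.deg

end base

section setup

variable {L L' : Type} [Field L] [Field L'] [Algebra L L'] [IsSepClosure L L']

/-- The extension of the constants. -/
theorem exists_nf2 {a b : L[X]} (hF : Full2 a b) {St : IntermediateField L L' → Prop}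
    (hSt : Stable2 St) (hbot : St ⊥) :
    ∃ M : IntermediateField L L', St M ∧ ((a * b * (a - b)).map (algebraMap L M)).Splits ∧
      ∃ (α β μ : M) (p q r : M[X]), NF (a.map (algebraMap L M)) (b.map (algebraMap L M)) α β p q r ∧
        μ ^ 2 = ((α + β) ^ 2 - 1) * ((α - β) ^ 2 - 1) := by
  haveI : IsSepClosed L' := IsSepClosure.sep_closed L
  have h2' : (2 : L') ≠ 0 := two_map (algebraMap L L') hF.two
  have hP0 := hF.sep.ne_zero
  have ha0 : a ≠ 0 := fun e => hP0 (by rw [e]; ring)
  have hb0 : b ≠ 0 := fun e => hP0 (by rw [e]; ring)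
  have hd0 : a - b ≠ 0 := fun e => hP0 (by rw [e]; ring)
  have dd : (a - b).natDegree ≤ 2 := (natDegree_sub_le _ _).trans (max_le hF.da hF.db)
  have hs : ((a * b * (a - b)).map (algebraMap L L')).Splits :=
    IsSepClosed.splits_of_separable _ hF.sep.map
  obtain ⟨S, hS⟩ : ∃ S : Finset L', S = ((a * b * (a - b)).rootSet_finite L').toFinset :=
    ⟨_, rfl⟩
  obtain ⟨M1, -, hM1, hS1⟩ := st2_set hSt S (by
    intro x hx
    rw [hS, Set.Finite.mem_toFinset, mem_rootSet] at hx
    have h1 := hx.2
    rw [map_mul, map_mul] at h1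
    rcases mul_eq_zero.1 h1 with h | h
    · rcases mul_eq_zero.1 h with h | h
      · exact ⟨a, ha0, hF.da, h⟩
      · exact ⟨b, hb0, hF.db, h⟩
    · exact ⟨_, hd0, dd, h⟩) ⊥ hbot
  have hsM1 : ((a * b * (a - b)).map (algebraMap L M1)).Splits :=
    IntermediateField.splits_of_splits hs fun x hx => hS1 x (by
      rw [hS, Set.Finite.mem_toFinset]
      exact hx)
  have hF1 := hF.map (algebraMap L M1)
  obtain ⟨a1, a2, b1, b2, d1, d2, c, l1, l2, hfac⟩ := exists_fac hF1 (by rw [map_P]; exact hsM1)
  obtain ⟨M2, h12, hM2, w, hw⟩ := st2_sqrt hSt h2' hM1 (c * l1 * l2)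
  let φ1 : M1 →+* M2 := (IntermediateField.inclusion h12 : M1 →ₐ[L] M2)
  have hbr : ∀ u v : M1[X], br (u.map φ1) (v.map φ1) = φ1 (br u v) := by
    intro u v
    unfold br
    rw [coeff_map, coeff_map, coeff_map, coeff_map, ← map_mul, ← map_mul, ← map_sub]
  have hne : ∀ {x : M1}, x ≠ 0 → φ1 x ≠ 0 := fun h => (map_ne_zero_iff _ φ1.injective).2 h
  have hfac2 : Fac ((a.map (algebraMap L M1)).map φ1) ((b.map (algebraMap L M1)).map φ1)
      (a1.map φ1) (a2.map φ1) (b1.map φ1) (b2.map φ1) (d1.map φ1) (d2.map φ1) (φ1 c) (φ1 l1)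
      (φ1 l2) := by
    refine ⟨by rw [natDegree_map]; exact hfac.n1, by rw [natDegree_map]; exact hfac.n2,
      by rw [natDegree_map]; exact hfac.n3, by rw [natDegree_map]; exact hfac.n4,
      by rw [natDegree_map]; exact hfac.n5, by rw [natDegree_map]; exact hfac.n6,
      ?_, ?_, ?_, hne hfac.hc, hne hfac.hl1, hne hfac.hl2, ?_, ?_, ?_, ?_, ?_, ?_, ?_, ?_, ?_, ?_⟩
    · rw [← Polynomial.map_mul, ← hfac.ea]
    · rw [← Polynomial.map_mul, ← hfac.eb]
    · rw [← Polynomial.map_mul, ← Polynomial.map_sub, ← hfac.ed]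
    · rw [← map_C φ1, ← map_C φ1, ← Polynomial.map_mul, ← Polynomial.map_mul,
        ← Polynomial.map_sub, ← hfac.e1]
    · rw [← map_C φ1, ← map_C φ1, ← Polynomial.map_mul, ← Polynomial.map_mul,
        ← Polynomial.map_sub, ← hfac.e2]
    · rw [← map_C φ1, ← map_C φ1, ← Polynomial.map_mul, ← Polynomial.map_mul,
        ← Polynomial.map_sub, ← hfac.e3]
    · rw [hbr]; exact hne hfac.m1
    · rw [hbr]; exact hne hfac.m2
    · rw [hbr]; exact hne hfac.m3
    · rw [hbr]; exact hne hfac.m4
    · rw [hbr]; exact hne hfac.m5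
    · rw [hbr]; exact hne hfac.m6
    · rw [hbr]; exact hne hfac.m7
  obtain ⟨α, β, p, q, r, hnf⟩ := exists_nf (two_map φ1 hF1.two) (w := w) hfac2 (by
    rw [hw]
    show φ1 (c * l1 * l2) = _
    rw [map_mul, map_mul])
  obtain ⟨M, h23, hM, μ, hμ⟩ := st2_sqrt hSt h2' hM2 (((α + β) ^ 2 - 1) * ((α - β) ^ 2 - 1))
  let φ2 : M2 →+* M := (IntermediateField.inclusion h23 : M2 →ₐ[L] M)
  have hφ : (φ2.comp φ1).comp (algebraMap L M1) = algebraMap L M :=
    (IntermediateField.inclusion (h12.trans h23)).comp_algebraMap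
  refine ⟨M, hM, ?_, φ2 α, φ2 β, μ, p.map φ2, q.map φ2, r.map φ2, ?_, ?_⟩
  · have := hsM1.map (φ2.comp φ1)
    rw [Polynomial.map_map, hφ] at this
    exact this
  · have := hnf.map φ2
    rw [Polynomial.map_map, Polynomial.map_map, Polynomial.map_map, Polynomial.map_map] at this
    rw [← hφ]
    exact this
  · rw [hμ]
    show φ2 _ = _
    rw [map_mul, map_sub, map_sub, map_pow, map_pow, map_add, map_sub, map_one]

end setup

section main

variable {L L' K F : Type} [Field L] [Field L'] [Field K] [Field F]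
  [Algebra L L'] [Algebra L[X] K] [Algebra L'[X] F] [IsFractionRing L'[X] F] [Algebra K F]

/-- The generic fibre of the pullback by `s = Q / R` of `y² = x (x - a) (x - b)`, over `K = L(t)`. -/
noncomputable abbrev surfF (K : Type) [Field K] [Algebra L[X] K] (Q R a b : L[X]) :
    WeierstrassCurve K :=
  crv (algebraMap L[X] K (hb Q R 2 a)) (algebraMap L[X] K (hb Q R 2 b))

set_option maxHeartbeats 4000000 in
theorem tate_full (hT : IsTower L L' K F) {a b Q R : L[X]} (hB : Full2 a b)
    {St : IntermediateField L L' → Prop} (hSt : Stable2 St) (hbot : St ⊥) {n : ℕ} (hn : ¬ 2 ∣ n)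
    (hco : IsCoprime Q R)
    (hf : ∀ M : IntermediateField L L', St M → ((a * b * (a - b)).map (algebraMap L M)).Splits →
      FibF (Q.map (algebraMap L M)) (R.map (algebraMap L M)) n (a.map (algebraMap L M))
        (b.map (algebraMap L M))) :
    TateQ (F := F) 2 L' (surfF K Q R a b) := by
  haveI := hT.sep
  haveI := hT.fracK
  haveI : IsSepClosed L' := IsSepClosure.sep_closed L
  haveI : IsSepClosure K (Sep F) := sepKΩ hT.map
  haveI : Algebra.IsSeparable K (Sep F) := IsSepClosure.separable
  haveI : IsGalois K (Sep F) := inferInstance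
  have hpres : Preserves K F (Sep F) := preserves hT.map
  obtain ⟨M, hM, hMs, α, β, μ, p, q, r, hnf, hμ⟩ := exists_nf2 (L' := L') hB hSt hbot
  haveI := hSt.fin M hM
  have hFM := hf M hM hMs
  -- the fields
  obtain ⟨i₁, hi₁⟩ := exists_lift (K := K) (K₁ := FractionRing M[X]) (algebraMap L M)
  obtain ⟨i₂, hi₂⟩ := exists_lift (K := FractionRing M[X]) (K₁ := F) (algebraMap M L')
  letI : Algebra K (FractionRing M[X]) := i₁.toAlgebra
  letI : Algebra (FractionRing M[X]) F := i₂.toAlgebra
  have hKK : ∀ p : L[X], algebraMap K (FractionRing M[X]) (algebraMap L[X] K p) =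
      algebraMap M[X] (FractionRing M[X]) (p.map (algebraMap L M)) := hi₁
  haveI : IsScalarTower K (FractionRing M[X]) F := by
    refine IsScalarTower.of_algebraMap_eq fun x => ?_
    obtain ⟨g, h, hh, rfl⟩ := IsFractionRing.div_surjective (A := L[X]) x
    have key : ∀ g : L[X], algebraMap K F (algebraMap L[X] K g) =
        i₂ (i₁ (algebraMap L[X] K g)) := by
      intro g
      rw [hT.map, hi₁, hi₂, Polynomial.map_map]
      rfl
    show algebraMap K F _ = i₂ (i₁ _)
    rw [map_div₀, map_div₀, map_div₀, key, key]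
  haveI : IsSepClosure M L' := ⟨IsSepClosure.sep_closed L, by
    haveI : Algebra.IsSeparable L L' := IsSepClosure.separable
    exact Algebra.isSeparable_tower_top_of_isSeparable L M L'⟩
  have hT1 : IsTower M L' (FractionRing M[X]) F := ⟨inferInstance, inferInstance, hi₂⟩
  haveI : FiniteDimensional K (FractionRing M[X]) := finite_mid hKK
  -- the coefficients
  have eA : algebraMap K (FractionRing M[X]) (algebraMap L[X] K (hb Q R 2 a)) =
      algebraMap M[X] (FractionRing M[X]) (hb (Q.map (algebraMap L M)) (R.map (algebraMap L M))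
        2 (a.map (algebraMap L M))) := by
    rw [hKK, hb_map]
  have eB : algebraMap K (FractionRing M[X]) (algebraMap L[X] K (hb Q R 2 b)) =
      algebraMap M[X] (FractionRing M[X]) (hb (Q.map (algebraMap L M)) (R.map (algebraMap L M))
        2 (b.map (algebraMap L M))) := by
    rw [hKK, hb_map]
  have h1 := tateAt_two (tate_nf (K := FractionRing M[X]) (F := F) hT1
    (hB.map (algebraMap L M)) hnf hμ hn (hco.map (mapRingHom (algebraMap L M))) hFM)
  refine tate_desc (K₁ := FractionRing M[X]) hpres ?_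
  have e : (surfF K Q R a b).map (algebraMap K (FractionRing M[X])) =
      crv (algebraMap M[X] (FractionRing M[X]) (hb (Q.map (algebraMap L M))
        (R.map (algebraMap L M)) 2 (a.map (algebraMap L M))))
        (algebraMap M[X] (FractionRing M[X]) (hb (Q.map (algebraMap L M))
          (R.map (algebraMap L M)) 2 (b.map (algebraMap L M)))) := by
    rw [← eA, ← eB]
    ext
    · exact map_zero _
    · show algebraMap K (FractionRing M[X]) (-(_ + _)) = -(_ + _)
      rw [map_neg, map_add]
    · exact map_zero _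
    · show algebraMap K (FractionRing M[X]) (_ * _) = _ * _
      rw [map_mul]
    · exact map_zero _
  rw [e]
  exact h1

end main

end Pool.Agent.N181.TC
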