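import Pool.Agent.N181.P9.Main
import Pool.Agent.N181.TA.Small
import Pool.Agent.TH115.GD.Rk2

/-!
The rational elliptic surfaces `y² = x (x - a) (x - b)` with six fibres of type `I₂`: the normal form
`a = p² - q²`, `b = p² - r²`.
-/

set_option autoImplicit false
set_option linter.all false

open Polynomial
open scoped Classical

namespace Pool.Agent.N181.TC

open Pool.Agent.N181.P3 (hb hb_map hb_sum)

/-- The elliptic curve `y² = x (x - a) (x - b)` over `k(s)` with `a`, `b` of degree at most two, such that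
`a b (a - b)` is separable of degree at least five: the rational elliptic surfaces with full level two and
six fibres of type `I₂` (the place at infinity is one of the six places if the degree is five). -/
structure Full2 {k : Type} [Field k] (a b : k[X]) : Prop where
  two : (2 : k) ≠ 0
  da : a.natDegree ≤ 2
  db : b.natDegree ≤ 2
  sep : (a * b * (a - b)).Separable
  deg : 5 ≤ (a * b * (a - b)).natDegree

/-- The normal form `a = p² - q²`, `b = p² - r²`, `p = α q + β r`, with `p`, `q`, `r` of degree at most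
one. -/
structure NF {M : Type} [Field M] (a b : M[X]) (α β : M) (p q r : M[X]) : Prop where
  dp : p.natDegree ≤ 1
  dq : q.natDegree ≤ 1
  dr : r.natDegree ≤ 1
  hα : α ≠ 0
  hβ : β ≠ 0
  h1 : (α + β) ^ 2 - 1 ≠ 0
  h2 : (α - β) ^ 2 - 1 ≠ 0
  ep : p = C α * q + C β * r
  ea : a = p ^ 2 - q ^ 2
  eb : b = p ^ 2 - r ^ 2
  det : q.coeff 1 * r.coeff 0 - q.coeff 0 * r.coeff 1 ≠ 0

section lin

variable {M : Type} [Field M]

/-- The determinant of two linear polynomials. -/
def br (u v : M[X]) : M := u.coeff 1 * v.coeff 0 - u.coeff 0 * v.coeff 1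

theorem br_C (x y : M) (u v : M[X]) : br (C x * u) (C y * v) = x * y * br u v := by
  unfold br
  rw [coeff_C_mul, coeff_C_mul, coeff_C_mul, coeff_C_mul]
  ring

theorem lin_eq {u : M[X]} (h : u.natDegree ≤ 1) : u = C (u.coeff 1) * X + C (u.coeff 0) :=
  eq_X_add_C_of_natDegree_le_one h

theorem lin_ext {u v : M[X]} (hu : u.natDegree ≤ 1) (hv : v.natDegree ≤ 1)
    (h1 : u.coeff 1 = v.coeff 1) (h0 : u.coeff 0 = v.coeff 0) : u = v := by
  rw [lin_eq hu, lin_eq hv, h1, h0]

theorem prop_of_br {u d : M[X]} (hu : u.natDegree ≤ 1) (hd : d.natDegree ≤ 1) (hd0 : d ≠ 0)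
    (h : br u d = 0) : ∃ lam : M, u = C lam * d := by
  unfold br at h
  by_cases h1 : d.coeff 1 = 0
  · have h0 : d.coeff 0 ≠ 0 := by
      intro h0
      apply hd0
      rw [lin_eq hd, h1, h0]
      simp
    refine ⟨u.coeff 0 / d.coeff 0, lin_ext hu ((natDegree_C_mul_le _ _).trans hd) ?_ ?_⟩
    · rw [coeff_C_mul, h1, mul_zero]
      rw [h1, mul_zero, sub_zero] at h
      exact (mul_eq_zero.1 h).resolve_right h0
    · rw [coeff_C_mul, div_mul_cancel₀ _ h0]
  · refine ⟨u.coeff 1 / d.coeff 1, lin_ext hu ((natDegree_C_mul_le _ _).trans hd) ?_ ?_⟩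
    · rw [coeff_C_mul, div_mul_cancel₀ _ h1]
    · rw [coeff_C_mul]
      field_simp
      linear_combination (-1) * h

/-- Two factors of a separable polynomial of degree at least five are not proportional. -/
theorem br_ne {P u v w : M[X]} (hP : P.Separable) (h5 : 5 ≤ P.natDegree) (e : P = u * v * w)
    (hu : u.natDegree ≤ 1) (hv : v.natDegree ≤ 1) (hw : w.natDegree ≤ 4) : br u v ≠ 0 := by
  intro h
  have hP0 := hP.ne_zero
  have hu0 : u ≠ 0 := by
    rintro rfl
    rw [zero_mul, zero_mul] at e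
    exact hP0 e
  have hv0 : v ≠ 0 := by
    rintro rfl
    rw [mul_zero, zero_mul] at e
    exact hP0 e
  obtain ⟨lam, el⟩ := prop_of_br hu hv hv0 h
  have hdvd : v * v ∣ P := by
    rw [e, el]
    exact ⟨C lam * w, by ring⟩
  have hsq := hP.squarefree v hdvd
  have hvd := natDegree_eq_zero_of_isUnit hsq
  have hud : u.natDegree = 0 := by
    rw [el]
    have := natDegree_C_mul_le lam v
    omega
  have h1 : P.natDegree ≤ 4 := by
    rw [e]
    refine natDegree_mul_le.trans ?_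
    have h2 := natDegree_mul_le (p := u) (q := v)
    omega
  omega

end lin

section fac

variable {M : Type} [Field M]

/-- A polynomial of degree one or two is a product of two linear forms. -/
theorem fac_two {g : M[X]} (hs : g.Splits) (h0 : g ≠ 0) (h2 : g.natDegree ≤ 2) :
    ∃ u v : M[X], u.natDegree ≤ 1 ∧ v.natDegree ≤ 1 ∧ g = u * v := by
  have e := hs.eq_prod_roots
  have hcard : g.roots.card = g.natDegree := hs.natDegree_eq_card_roots.symm
  have hX : ∀ x : M, (X - C x).natDegree ≤ 1 := fun x => by rw [natDegree_X_sub_C]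
  obtain h | h | h : g.roots.card = 0 ∨ g.roots.card = 1 ∨ g.roots.card = 2 := by omega
  · rw [Multiset.card_eq_zero] at h
    rw [h, Multiset.map_zero, Multiset.prod_zero, mul_one] at e
    exact ⟨C g.leadingCoeff, 1, by rw [natDegree_C]; omega, by rw [natDegree_one]; omega,
      by rw [mul_one]; exact e⟩
  · obtain ⟨x, hx⟩ := Multiset.card_eq_one.1 h
    rw [hx, Multiset.map_singleton, Multiset.prod_singleton] at e
    exact ⟨C g.leadingCoeff, X - C x, by rw [natDegree_C]; omega, hX x, e⟩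
  · obtain ⟨x, y, hxy⟩ := Multiset.card_eq_two.1 h
    rw [hxy] at e
    simp only [Multiset.insert_eq_cons, Multiset.map_cons, Multiset.map_singleton,
      Multiset.prod_cons, Multiset.prod_singleton] at e
    exact ⟨C g.leadingCoeff * (X - C x), X - C y, (natDegree_C_mul_le _ _).trans (hX x), hX y,
      by rw [mul_assoc]; exact e⟩

end fac

section nf

variable {M : Type} [Field M]

/-- The data of the factorization. -/
structure Fac (a b a1 a2 b1 b2 d1 d2 : M[X]) (c l1 l2 : M) : Prop where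
  n1 : a1.natDegree ≤ 1
  n2 : a2.natDegree ≤ 1
  n3 : b1.natDegree ≤ 1
  n4 : b2.natDegree ≤ 1
  n5 : d1.natDegree ≤ 1
  n6 : d2.natDegree ≤ 1
  ea : a = a1 * a2
  eb : b = b1 * b2
  ed : a - b = d1 * d2
  hc : c ≠ 0
  hl1 : l1 ≠ 0
  hl2 : l2 ≠ 0
  e1 : C c * b1 - a2 = C l1 * d1
  e2 : C c * a1 - b2 = C l2 * d1
  e3 : d2 = C l2 * b1 - C l1 * a1
  m1 : br a1 a2 ≠ 0
  m2 : br b1 b2 ≠ 0
  m3 : br d1 d2 ≠ 0
  m4 : br a1 d1 ≠ 0
  m5 : br a1 d2 ≠ 0
  m6 : br a2 d1 ≠ 0
  m7 : br a2 d2 ≠ 0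

theorem exists_fac {a b : M[X]} (h : Full2 a b) (hs : (a * b * (a - b)).Splits) :
    ∃ (a1 a2 b1 b2 d1 d2 : M[X]) (c l1 l2 : M), Fac a b a1 a2 b1 b2 d1 d2 c l1 l2 := by
  have hP0 := h.sep.ne_zero
  have ha0 : a ≠ 0 := fun e => hP0 (by rw [e]; ring)
  have hb0 : b ≠ 0 := fun e => hP0 (by rw [e]; ring)
  have hd0 : a - b ≠ 0 := fun e => hP0 (by rw [e]; ring)
  have sa : a.Splits := hs.of_dvd hP0 ⟨b * (a - b), by ring⟩
  have sb : b.Splits := hs.of_dvd hP0 ⟨a * (a - b), by ring⟩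
  have sd : (a - b).Splits := hs.of_dvd hP0 ⟨a * b, by ring⟩
  have dd : (a - b).natDegree ≤ 2 :=
    (natDegree_sub_le _ _).trans (max_le h.da h.db)
  obtain ⟨a1, a2, n1, n2, ea⟩ := fac_two sa ha0 h.da
  obtain ⟨b1, b2, n3, n4, eb⟩ := fac_two sb hb0 h.db
  obtain ⟨d1, d2, n5, n6, ed⟩ := fac_two sd hd0 dd
  have eP : a * b * (a - b) = a1 * a2 * (b1 * b2) * (d1 * d2) := by rw [← ea, ← eb, ← ed]
  have key : ∀ u v w1 w2 w3 w4 : M[X], a * b * (a - b) = u * v * (w1 * w2 * (w3 * w4)) →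
      u.natDegree ≤ 1 → v.natDegree ≤ 1 → w1.natDegree ≤ 1 → w2.natDegree ≤ 1 →
      w3.natDegree ≤ 1 → w4.natDegree ≤ 1 → br u v ≠ 0 := by
    intro u v w1 w2 w3 w4 e hu hv g1 g2 g3 g4
    refine br_ne h.sep h.deg e hu hv ?_
    have k1 := natDegree_mul_le (p := w1) (q := w2)
    have k2 := natDegree_mul_le (p := w3) (q := w4)
    have k3 := natDegree_mul_le (p := w1 * w2) (q := w3 * w4)
    omega
  have m1 : br a1 a2 ≠ 0 := key a1 a2 b1 b2 d1 d2 (by rw [eP]; ring) n1 n2 n3 n4 n5 n6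
  have m2 : br b1 b2 ≠ 0 := key b1 b2 a1 a2 d1 d2 (by rw [eP]; ring) n3 n4 n1 n2 n5 n6
  have m3 : br d1 d2 ≠ 0 := key d1 d2 b1 b2 a1 a2 (by rw [eP]; ring) n5 n6 n3 n4 n1 n2
  have m4 : br a1 d1 ≠ 0 := key a1 d1 b1 b2 a2 d2 (by rw [eP]; ring) n1 n5 n3 n4 n2 n6
  have m5 : br a1 d2 ≠ 0 := key a1 d2 b1 b2 a2 d1 (by rw [eP]; ring) n1 n6 n3 n4 n2 n5
  have m6 : br a2 d1 ≠ 0 := key a2 d1 b1 b2 a1 d2 (by rw [eP]; ring) n2 n5 n3 n4 n1 n6
  have m7 : br a2 d2 ≠ 0 := key a2 d2 b1 b2 a1 d1 (by rw [eP]; ring) n2 n6 n3 n4 n1 n5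
  have m8 : br b1 d1 ≠ 0 := key b1 d1 a1 a2 b2 d2 (by rw [eP]; ring) n3 n5 n1 n2 n4 n6
  have m9 : br b1 a2 ≠ 0 := key b1 a2 a1 b2 d1 d2 (by rw [eP]; ring) n3 n2 n1 n4 n5 n6
  have m10 : br a1 b2 ≠ 0 := key a1 b2 a2 b1 d1 d2 (by rw [eP]; ring) n1 n4 n2 n3 n5 n6
  -- the coefficients of the relation
  have hrel : a1 * a2 - b1 * b2 = d1 * d2 := by rw [← ea, ← eb, ← ed]
  have cf : ∀ {u v : M[X]}, u.natDegree ≤ 1 → v.natDegree ≤ 1 →
      (u * v).coeff 2 = u.coeff 1 * v.coeff 1 ∧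
      (u * v).coeff 1 = u.coeff 1 * v.coeff 0 + u.coeff 0 * v.coeff 1 ∧
      (u * v).coeff 0 = u.coeff 0 * v.coeff 0 := by
    intro u v hu hv
    have hu2 : u.coeff 2 = 0 := coeff_eq_zero_of_natDegree_lt (by omega)
    have hv2 : v.coeff 2 = 0 := coeff_eq_zero_of_natDegree_lt (by omega)
    refine ⟨?_, ?_, mul_coeff_zero u v⟩
    · rw [coeff_mul, Finset.Nat.sum_antidiagonal_eq_sum_range_succ (fun i j => u.coeff i * v.coeff j),
        Finset.sum_range_succ, Finset.sum_range_succ, Finset.sum_range_one]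
      simp [hu2, hv2]
    · rw [coeff_mul, Finset.Nat.sum_antidiagonal_eq_sum_range_succ (fun i j => u.coeff i * v.coeff j),
        Finset.sum_range_succ, Finset.sum_range_one]
      simp
      ring
  obtain ⟨p2, p1, p0⟩ := cf n1 n2
  obtain ⟨q2, q1, q0⟩ := cf n3 n4
  obtain ⟨r2, r1, r0⟩ := cf n5 n6
  have c2 := congrArg (fun f => coeff f 2) hrel
  have c1 := congrArg (fun f => coeff f 1) hrel
  have c0 := congrArg (fun f => coeff f 0) hrel
  simp only [coeff_sub] at c2 c1 c0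
  rw [p2, q2, r2] at c2
  rw [p1, q1, r1] at c1
  rw [p0, q0, r0] at c0
  have hev : br a1 d1 * br a2 d1 = br b1 d1 * br b2 d1 := by
    unfold br
    linear_combination (d1.coeff 0 ^ 2) * c2 - (d1.coeff 0 * d1.coeff 1) * c1 +
      (d1.coeff 1 ^ 2) * c0
  obtain ⟨c, hc⟩ : ∃ c, c = br a2 d1 / br b1 d1 := ⟨_, rfl⟩
  have hcb : c * br b1 d1 = br a2 d1 := by rw [hc, div_mul_cancel₀ _ m8]
  have hca : c * br a1 d1 = br b2 d1 := by
    apply mul_left_cancel₀ m8
    linear_combination (br a1 d1) * hcb + hev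
  have hc0 : c ≠ 0 := by rw [hc]; exact div_ne_zero m6 m8
  have hd10 : d1 ≠ 0 := by
    rintro rfl
    apply m4
    unfold br
    simp
  have sub_deg : ∀ {u v : M[X]}, u.natDegree ≤ 1 → v.natDegree ≤ 1 →
      (C c * u - v).natDegree ≤ 1 := fun hu hv =>
    (natDegree_sub_le _ _).trans (max_le ((natDegree_C_mul_le _ _).trans hu) hv)
  obtain ⟨l1, e1⟩ := prop_of_br (sub_deg n3 n2) n5 hd10 (by
    unfold br at hcb ⊢
    rw [coeff_sub, coeff_sub, coeff_C_mul, coeff_C_mul]
    linear_combination hcb)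
  obtain ⟨l2, e2⟩ := prop_of_br (sub_deg n1 n4) n5 hd10 (by
    unfold br at hca ⊢
    rw [coeff_sub, coeff_sub, coeff_C_mul, coeff_C_mul]
    linear_combination hca)
  have hl1 : l1 ≠ 0 := by
    rintro rfl
    rw [C_0, zero_mul, sub_eq_zero] at e1
    apply m9
    rw [← e1]
    have := br_C 1 c b1 b1
    rw [C_1, one_mul] at this
    rw [this]
    unfold br
    ring
  have hl2 : l2 ≠ 0 := by
    rintro rfl
    rw [C_0, zero_mul, sub_eq_zero] at e2
    apply m10
    rw [← e2]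
    have := br_C 1 c a1 a1
    rw [C_1, one_mul] at this
    rw [this]
    unfold br
    ring
  refine ⟨a1, a2, b1, b2, d1, d2, c, l1, l2, n1, n2, n3, n4, n5, n6, ea, eb, ed, hc0, hl1, hl2,
    e1, e2, ?_, m1, m2, m3, m4, m5, m6, m7⟩
  apply mul_left_cancel₀ hd10
  rw [← hrel]
  have e1' : a2 = C c * b1 - C l1 * d1 := by rw [← e1]; ring
  have e2' : b2 = C c * a1 - C l2 * d1 := by rw [← e2]; ring
  rw [e1', e2']
  ring

theorem exists_nf (h2 : (2 : M) ≠ 0) {a b a1 a2 b1 b2 d1 d2 : M[X]} {c l1 l2 w : M}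
    (hF : Fac a b a1 a2 b1 b2 d1 d2 c l1 l2) (hw : w ^ 2 = c * l1 * l2) :
    ∃ (α β : M) (p q r : M[X]), NF a b α β p q r := by
  have hc := hF.hc
  have hl1 := hF.hl1
  have hl2 := hF.hl2
  have hw0 : w ≠ 0 := by
    rintro rfl
    rw [zero_pow two_ne_zero] at hw
    exact (mul_ne_zero (mul_ne_zero hc hl1) hl2) hw.symm
  have e1' : a2 = C c * b1 - C l1 * d1 := by rw [← hF.e1]; ring
  have e2' : b2 = C c * a1 - C l2 * d1 := by rw [← hF.e2]; ring
  obtain ⟨v, hv⟩ : ∃ v : M, v = (2 * w)⁻¹ := ⟨_, rfl⟩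
  have hv0 : v ≠ 0 := by rw [hv]; exact inv_ne_zero (mul_ne_zero h2 hw0)
  have hvw : 4 * v ^ 2 * (c * l1 * l2) = 1 := by
    rw [← hw, hv]
    field_simp
    norm_num
  obtain ⟨p, hp⟩ : ∃ p : M[X], p = C (v * c * l2) * b1 + C (v * c * l1) * a1 -
    C (v * l1 * l2) * d1 := ⟨_, rfl⟩
  obtain ⟨q, hq⟩ : ∃ q : M[X], q = C (v * c * l2) * b1 - C (v * c * l1) * a1 -
    C (v * l1 * l2) * d1 := ⟨_, rfl⟩
  obtain ⟨r, hr⟩ : ∃ r : M[X], r = C (v * c * l1) * a1 - C (v * c * l2) * b1 -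
    C (v * l1 * l2) * d1 := ⟨_, rfl⟩
  have E2 : (C (2 : M) : M[X]) = 2 := rfl
  have f1 : p - q = C (2 * v * c * l1) * a1 := by
    rw [hp, hq]
    simp only [C_mul, E2]
    ring
  have f2 : p + q = C (2 * v * l2) * a2 := by
    rw [hp, hq, e1']
    simp only [C_mul, E2]
    ring
  have f3 : p - r = C (2 * v * c * l2) * b1 := by
    rw [hp, hr]
    simp only [C_mul, E2]
    ring
  have f4 : p + r = C (2 * v * l1) * b2 := by
    rw [hp, hr, e2']
    simp only [C_mul, E2]
    ring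
  have f5 : q + r = C (-(2 * v * l1 * l2)) * d1 := by
    rw [hq, hr]
    simp only [C_mul, E2, C_neg]
    ring
  have f6 : q - r = C (2 * v * c) * d2 := by
    rw [hq, hr, hF.e3]
    simp only [C_mul, E2]
    ring
  have hC : (C (4 * v ^ 2 * (c * l1 * l2)) : M[X]) = 1 := by rw [hvw, C_1]
  have hC' : (C v : M[X]) ^ 2 * (C c * C l1 * C l2) * 4 = 1 := by
    have E4 : (C (4 : M) : M[X]) = 4 := rfl
    rw [← hC]
    simp only [C_mul, C_pow, E4]
    ring
  have ea : a = p ^ 2 - q ^ 2 := by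
    have e : p ^ 2 - q ^ 2 = (p - q) * (p + q) := by ring
    rw [e, f1, f2, hF.ea]
    simp only [C_mul, E2]
    linear_combination (-(a1 * a2)) * hC'
  have eb : b = p ^ 2 - r ^ 2 := by
    have e : p ^ 2 - r ^ 2 = (p - r) * (p + r) := by ring
    rw [e, f3, f4, hF.eb]
    simp only [C_mul, E2]
    linear_combination (-(b1 * b2)) * hC'
  have dlin : ∀ (x y z : M), (C x * b1 + C y * a1 - C z * d1).natDegree ≤ 1 := by
    intro x y z
    refine (natDegree_sub_le _ _).trans (max_le ((natDegree_add_le _ _).trans (max_le ?_ ?_)) ?_)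
    · exact (natDegree_C_mul_le _ _).trans hF.n3
    · exact (natDegree_C_mul_le _ _).trans hF.n1
    · exact (natDegree_C_mul_le _ _).trans hF.n5
  have dp : p.natDegree ≤ 1 := by rw [hp]; exact dlin _ _ _
  have dq : q.natDegree ≤ 1 := by
    have e : q = C (v * c * l2) * b1 + C (-(v * c * l1)) * a1 - C (v * l1 * l2) * d1 := by
      rw [hq, C_neg]; ring
    rw [e]; exact dlin _ _ _
  have dr : r.natDegree ≤ 1 := by
    have e : r = C (-(v * c * l2)) * b1 + C (v * c * l1) * a1 - C (v * l1 * l2) * d1 := by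
      rw [hr, C_neg]; ring
    rw [e]; exact dlin _ _ _
  -- the brackets
  have n2v : 2 * v ≠ 0 := mul_ne_zero h2 hv0
  have b1' : br (q + r) (q - r) ≠ 0 := by
    rw [f5, f6, br_C]
    exact mul_ne_zero (mul_ne_zero (neg_ne_zero.2 (mul_ne_zero (mul_ne_zero n2v hl1) hl2))
      (mul_ne_zero n2v hc)) hF.m3
  have b2' : br (p + r) (p - r) ≠ 0 := by
    rw [f4, f3, br_C]
    refine mul_ne_zero (mul_ne_zero (mul_ne_zero n2v hl1)
      (mul_ne_zero (mul_ne_zero n2v hc) hl2)) ?_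
    intro h
    apply hF.m2
    unfold br at h ⊢
    linear_combination (-1) * h
  have b3' : br (p - q) (p + q) ≠ 0 := by
    rw [f1, f2, br_C]
    exact mul_ne_zero (mul_ne_zero (mul_ne_zero (mul_ne_zero n2v hc) hl1)
      (mul_ne_zero n2v hl2)) hF.m1
  have b4' : br (p - q) (q - r) ≠ 0 := by
    rw [f1, f6, br_C]
    exact mul_ne_zero (mul_ne_zero (mul_ne_zero (mul_ne_zero n2v hc) hl1)
      (mul_ne_zero n2v hc)) hF.m5
  have b5' : br (p + q) (q - r) ≠ 0 := by
    rw [f2, f6, br_C]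
    exact mul_ne_zero (mul_ne_zero (mul_ne_zero n2v hl2) (mul_ne_zero n2v hc)) hF.m7
  have b6' : br (p - q) (q + r) ≠ 0 := by
    rw [f1, f5, br_C]
    exact mul_ne_zero (mul_ne_zero (mul_ne_zero (mul_ne_zero n2v hc) hl1)
      (neg_ne_zero.2 (mul_ne_zero (mul_ne_zero n2v hl1) hl2))) hF.m4
  have b7' : br (p + q) (q + r) ≠ 0 := by
    rw [f2, f5, br_C]
    exact mul_ne_zero (mul_ne_zero (mul_ne_zero n2v hl2)
      (neg_ne_zero.2 (mul_ne_zero (mul_ne_zero n2v hl1) hl2))) hF.m6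
  have ex1 : ∀ u v : M[X], br (u + v) (u - v) = -2 * br u v := by
    intro u v
    unfold br
    simp only [coeff_add, coeff_sub]
    ring
  have hqr : br q r ≠ 0 := by
    intro h
    apply b1'
    rw [ex1, h, mul_zero]
  obtain ⟨α, hα⟩ : ∃ α, α = br p r / br q r := ⟨_, rfl⟩
  obtain ⟨β, hβ⟩ : ∃ β, β = br q p / br q r := ⟨_, rfl⟩
  have hα' : α * br q r = br p r := by rw [hα, div_mul_cancel₀ _ hqr]
  have hβ' : β * br q r = br q p := by rw [hβ, div_mul_cancel₀ _ hqr]
  have hα0 : α ≠ 0 := by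
    rw [hα]
    refine div_ne_zero ?_ hqr
    intro h
    apply b2'
    rw [ex1, h, mul_zero]
  have hβ0 : β ≠ 0 := by
    rw [hβ]
    refine div_ne_zero ?_ hqr
    intro h
    apply b3'
    unfold br at h ⊢
    simp only [coeff_add, coeff_sub]
    linear_combination (-2) * h
  have hab1 : α + β - 1 ≠ 0 := by
    intro h
    apply b4'
    have h3 : br p r + br q p - br q r = 0 := by
      rw [← hα', ← hβ']
      linear_combination (br q r) * h
    unfold br at h3 ⊢
    simp only [coeff_add, coeff_sub]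
    linear_combination (-1) * h3
  have hab2 : α + β + 1 ≠ 0 := by
    intro h
    apply b5'
    have h3 : br p r + br q p + br q r = 0 := by
      rw [← hα', ← hβ']
      linear_combination (br q r) * h
    unfold br at h3 ⊢
    simp only [coeff_add, coeff_sub]
    linear_combination (-1) * h3
  have hab3 : α - β - 1 ≠ 0 := by
    intro h
    apply b6'
    have h3 : br p r - br q p - br q r = 0 := by
      rw [← hα', ← hβ']
      linear_combination (br q r) * h
    unfold br at h3 ⊢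
    simp only [coeff_add, coeff_sub]
    linear_combination h3
  have hab4 : α - β + 1 ≠ 0 := by
    intro h
    apply b7'
    have h3 : br p r - br q p + br q r = 0 := by
      rw [← hα', ← hβ']
      linear_combination (br q r) * h
    unfold br at h3 ⊢
    simp only [coeff_add, coeff_sub]
    linear_combination h3
  refine ⟨α, β, p, q, r, dp, dq, dr, hα0, hβ0, ?_, ?_, ?_, ea, eb, hqr⟩
  · have e : (α + β) ^ 2 - 1 = (α + β - 1) * (α + β + 1) := by ring
    rw [e]
    exact mul_ne_zero hab1 hab2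
  · have e : (α - β) ^ 2 - 1 = (α - β - 1) * (α - β + 1) := by ring
    rw [e]
    exact mul_ne_zero hab3 hab4
  · have dsum : (C α * q + C β * r).natDegree ≤ 1 :=
      (natDegree_add_le _ _).trans (max_le ((natDegree_C_mul_le _ _).trans dq)
        ((natDegree_C_mul_le _ _).trans dr))
    refine lin_ext dp dsum ?_ ?_
    · rw [coeff_add, coeff_C_mul, coeff_C_mul]
      apply mul_right_cancel₀ hqr
      have : p.coeff 1 * br q r = br p r * q.coeff 1 + br q p * r.coeff 1 := by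
        unfold br
        ring
      rw [this, ← hα', ← hβ']
      ring
    · rw [coeff_add, coeff_C_mul, coeff_C_mul]
      apply mul_right_cancel₀ hqr
      have : p.coeff 0 * br q r = br p r * q.coeff 0 + br q p * r.coeff 0 := by
        unfold br
        ring
      rw [this, ← hα', ← hβ']
      ring

theorem NF.map {N : Type} [Field N] (φ : M →+* N) {a b : M[X]} {α β : M} {p q r : M[X]}
    (h : NF a b α β p q r) :
    NF (a.map φ) (b.map φ) (φ α) (φ β) (p.map φ) (q.map φ) (r.map φ) := by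
  refine ⟨by rw [natDegree_map]; exact h.dp, by rw [natDegree_map]; exact h.dq,
    by rw [natDegree_map]; exact h.dr, (map_ne_zero_iff _ φ.injective).2 h.hα,
    (map_ne_zero_iff _ φ.injective).2 h.hβ, ?_, ?_, ?_, ?_, ?_, ?_⟩
  · have := (map_ne_zero_iff _ φ.injective).2 h.h1
    rwa [map_sub, map_pow, map_add, map_one] at this
  · have := (map_ne_zero_iff _ φ.injective).2 h.h2
    rwa [map_sub, map_pow, map_sub, map_one] at this
  · conv_lhs => rw [h.ep]
    rw [Polynomial.map_add, Polynomial.map_mul, Polynomial.map_mul, map_C, map_C]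
  · conv_lhs => rw [h.ea]
    rw [Polynomial.map_sub, Polynomial.map_pow, Polynomial.map_pow]
  · conv_lhs => rw [h.eb]
    rw [Polynomial.map_sub, Polynomial.map_pow, Polynomial.map_pow]
  · rw [coeff_map, coeff_map, coeff_map, coeff_map, ← map_mul, ← map_mul, ← map_sub]
    exact (map_ne_zero_iff _ φ.injective).2 h.det

end nf

end Pool.Agent.N181.TC
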