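import Pool.Agent.N181.TC.NF

/-!
The Tate conjecture at 2 for the pullbacks with irreducible forms.
-/

set_option autoImplicit false
set_option linter.all false

open Polynomial IsDedekindDomain WeierstrassCurve WeierstrassCurve.Affine
open scoped Classical

namespace Pool.Agent.N181.TC

open Pool.Agent.N181.P3 (hb hb_map hb_sum)
open Pool.Agent.N181.P8 (sep_map exists_lift finite_mid TateQ tate_desc)
open Pool.Agent.N181.P9 (tateAt_two)
open Pool.Agent.TH115.GD

section hom

variable {M : Type} [Field M]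

/-- The homogenization of a linear polynomial. -/
noncomputable def H (Q R : M[X]) (u : M[X]) : M[X] := C (u.coeff 1) * Q + C (u.coeff 0) * R

theorem H_sub_sq {Q R : M[X]} {p q : M[X]} (dp : p.natDegree ≤ 1) (dq : q.natDegree ≤ 1) :
    hb Q R 2 (p ^ 2 - q ^ 2) = H Q R p ^ 2 - H Q R q ^ 2 := by
  have cf : ∀ {u : M[X]}, u.natDegree ≤ 1 →
      (u ^ 2).coeff 2 = u.coeff 1 ^ 2 ∧ (u ^ 2).coeff 1 = 2 * u.coeff 1 * u.coeff 0 ∧
      (u ^ 2).coeff 0 = u.coeff 0 ^ 2 := by
    intro u hu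
    have hu2 : u.coeff 2 = 0 := coeff_eq_zero_of_natDegree_lt (by omega)
    refine ⟨?_, ?_, ?_⟩
    · rw [pow_two, coeff_mul,
        Finset.Nat.sum_antidiagonal_eq_sum_range_succ (fun i j => u.coeff i * u.coeff j),
        Finset.sum_range_succ, Finset.sum_range_succ, Finset.sum_range_one]
      simp [hu2]
      ring
    · rw [pow_two, coeff_mul,
        Finset.Nat.sum_antidiagonal_eq_sum_range_succ (fun i j => u.coeff i * u.coeff j),
        Finset.sum_range_succ, Finset.sum_range_one]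
      simp
      ring
    · rw [pow_two, mul_coeff_zero, pow_two]
  obtain ⟨p2, p1, p0⟩ := cf dp
  obtain ⟨q2, q1, q0⟩ := cf dq
  have hd : (p ^ 2 - q ^ 2).natDegree ≤ 2 := by
    refine (natDegree_sub_le _ _).trans (max_le ?_ ?_)
    · exact natDegree_pow_le.trans (by omega)
    · exact natDegree_pow_le.trans (by omega)
  rw [hb_sum _ _ hd, Finset.sum_range_succ, Finset.sum_range_succ, Finset.sum_range_one]
  simp only [coeff_sub, p2, p1, p0, q2, q1, q0, H, C_sub, C_mul, C_pow]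
  have E2 : (C (2 : M) : M[X]) = 2 := rfl
  rw [E2]
  simp
  ring

/-- The conditions on the forms over the ground field: the polynomials `Q - ξ R`, `ξ` a root of
`a b (a - b)`, and `R` if the degree of this polynomial is five, are irreducible of degree `n` and
separable. -/
def FibF (Q R : M[X]) (n : ℕ) (a b : M[X]) : Prop :=
  (∀ ξ, (a * b * (a - b)).IsRoot ξ → Irreducible (Q - C ξ * R) ∧ (Q - C ξ * R).Separable ∧
    (Q - C ξ * R).natDegree = n) ∧
  ((a * b * (a - b)).natDegree ≤ 5 → Irreducible R ∧ R.Separable ∧ R.natDegree = n)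

theorem unit_form {f : M[X]} {c : M} (hc : c ≠ 0) {n : ℕ}
    (h : Irreducible f ∧ f.Separable ∧ f.natDegree = n) :
    Irreducible (C c * f) ∧ (C c * f).Separable ∧ (C c * f).natDegree = n := by
  have hu : IsUnit (C c : M[X]) := isUnit_C.2 (isUnit_iff_ne_zero.2 hc)
  exact ⟨(irreducible_isUnit_mul hu).2 h.1, h.2.1.unit_mul hu, by
    rw [natDegree_C_mul hc]; exact h.2.2⟩

/-- The form of a factor. -/
theorem form_of {Q R : M[X]} {n : ℕ} {a b : M[X]} (hP : (a * b * (a - b)).Separable)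
    (hf : FibF Q R n a b) {u w : M[X]} (hu : u.natDegree ≤ 1) (hw : w.natDegree ≤ 5)
    (e : a * b * (a - b) = u * w) :
    Irreducible (H Q R u) ∧ (H Q R u).Separable ∧ (H Q R u).natDegree = n := by
  have hu0 : u ≠ 0 := by
    rintro rfl
    rw [zero_mul] at e
    exact hP.ne_zero e
  by_cases h1 : u.coeff 1 = 0
  · have h0 : u.coeff 0 ≠ 0 := by
      intro h0
      apply hu0
      rw [lin_eq hu, h1, h0]
      simp
    have hd : u.natDegree = 0 := by
      rw [lin_eq hu, h1, C_0, zero_mul, zero_add, natDegree_C]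
    have h5 : (a * b * (a - b)).natDegree ≤ 5 := by
      rw [e]
      have := natDegree_mul_le (p := u) (q := w)
      omega
    have e1 : H Q R u = C (u.coeff 0) * R := by
      unfold H
      rw [h1, C_0, zero_mul, zero_add]
    rw [e1]
    exact unit_form h0 (hf.2 h5)
  · obtain ⟨ξ, hξ⟩ : ∃ ξ, ξ = -(u.coeff 0 / u.coeff 1) := ⟨_, rfl⟩
    have hroot : (a * b * (a - b)).IsRoot ξ := by
      rw [e, IsRoot.def, eval_mul]
      have : u.eval ξ = 0 := by
        rw [lin_eq hu, hξ]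
        simp only [eval_add, eval_mul, eval_C, eval_X]
        field_simp
        ring
      rw [this, zero_mul]
    have e1 : H Q R u = C (u.coeff 1) * (Q - C ξ * R) := by
      unfold H
      rw [hξ, C_neg]
      have e2 : (C (u.coeff 1) * C (u.coeff 0 / u.coeff 1) : M[X]) = C (u.coeff 0) := by
        rw [← C_mul, mul_div_cancel₀ _ h1]
      linear_combination (-R) * e2
    rw [e1]
    exact unit_form h1 (hf.1 ξ hroot)

end hom

section tate

variable {M L' K F : Type} [Field M] [Field L'] [Algebra M L'] [Field K] [Algebra M[X] K]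
  [Field F] [Algebra L'[X] F] [IsFractionRing L'[X] F] [Algebra K F]

theorem tate_nf (hT : IsTower M L' K F) {a b : M[X]} (hF : Full2 a b) {α β μ : M} {p q r : M[X]}
    (h : NF a b α β p q r) (hμ : μ ^ 2 = ((α + β) ^ 2 - 1) * ((α - β) ^ 2 - 1)) {Q R : M[X]}
    {n : ℕ} (hn : ¬ 2 ∣ n) (hco : IsCoprime Q R) (hf : FibF Q R n a b) :
    TateAtTwo (F := F) L' (crv (algebraMap M[X] K (hb Q R 2 a)) (algebraMap M[X] K (hb Q R 2 b))) := by
  have hμ0 : μ ≠ 0 := by
    rintro rfl
    rw [zero_pow two_ne_zero] at hμ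
    exact (mul_ne_zero h.h1 h.h2) hμ.symm
  have ea := h.ea
  have eb := h.eb
  have hHa : hb Q R 2 a = H Q R p ^ 2 - H Q R q ^ 2 := by rw [ea, H_sub_sq h.dp h.dq]
  have hHb : hb Q R 2 b = H Q R p ^ 2 - H Q R r ^ 2 := by rw [eb, H_sub_sq h.dp h.dr]
  rw [hHa, hHb]
  have hlin : H Q R p = C α * H Q R q + C β * H Q R r := by
    have e1 := congrArg (fun f => coeff f 1) h.ep
    have e0 := congrArg (fun f => coeff f 0) h.ep
    simp only [coeff_add, coeff_C_mul] at e1 e0
    unfold H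
    rw [e1, e0]
    simp only [C_add, C_mul]
    ring
  have hqr : IsCoprime (H Q R q) (H Q R r) := by
    obtain ⟨x, y, hxy⟩ := hco
    obtain ⟨δ, hδ⟩ : ∃ δ : M, δ = q.coeff 1 * r.coeff 0 - q.coeff 0 * r.coeff 1 := ⟨_, rfl⟩
    have hδ0 : δ ≠ 0 := by rw [hδ]; exact h.det
    have hδ' : (C δ⁻¹ : M[X]) * (C (q.coeff 1) * C (r.coeff 0) - C (q.coeff 0) * C (r.coeff 1)) =
        1 := by
      rw [← C_mul, ← C_mul, ← C_sub, ← C_mul, ← hδ, inv_mul_cancel₀ hδ0, C_1]
    refine ⟨C δ⁻¹ * (C (r.coeff 0) * x - C (r.coeff 1) * y),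
      C δ⁻¹ * (C (q.coeff 1) * y - C (q.coeff 0) * x), ?_⟩
    unfold H
    linear_combination (C δ⁻¹ * (C (q.coeff 1) * C (r.coeff 0) - C (q.coeff 0) * C (r.coeff 1))) *
      hxy + hδ'
  have eP : a * b * (a - b) = (p + q) * (p - q) * ((p + r) * (p - r)) * ((r + q) * (r - q)) := by
    rw [ea, eb]; ring
  have dp := h.dp
  have dq := h.dq
  have dr := h.dr
  have ds : ∀ {u v : M[X]}, u.natDegree ≤ 1 → v.natDegree ≤ 1 → (u + v).natDegree ≤ 1 :=
    fun hu hv => (natDegree_add_le _ _).trans (max_le hu hv)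
  have dd : ∀ {u v : M[X]}, u.natDegree ≤ 1 → v.natDegree ≤ 1 → (u - v).natDegree ≤ 1 :=
    fun hu hv => (natDegree_sub_le _ _).trans (max_le hu hv)
  have hadd : ∀ u v : M[X], H Q R (u + v) = H Q R u + H Q R v := by
    intro u v
    unfold H
    simp only [coeff_add, C_add]
    ring
  have hsub : ∀ u v : M[X], H Q R (u - v) = H Q R u - H Q R v := by
    intro u v
    unfold H
    simp only [coeff_sub, C_sub]
    ring
  have d5 : ∀ {u1 u2 u3 u4 u5 : M[X]}, u1.natDegree ≤ 1 → u2.natDegree ≤ 1 → u3.natDegree ≤ 1 →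
      u4.natDegree ≤ 1 → u5.natDegree ≤ 1 → (u1 * (u2 * u3) * (u4 * u5)).natDegree ≤ 5 := by
    intro u1 u2 u3 u4 u5 g1 g2 g3 g4 g5
    have k1 := natDegree_mul_le (p := u2) (q := u3)
    have k2 := natDegree_mul_le (p := u4) (q := u5)
    have k3 := natDegree_mul_le (p := u1) (q := u2 * u3)
    have k4 := natDegree_mul_le (p := u1 * (u2 * u3)) (q := u4 * u5)
    omega
  refine rank2 hT hF.two h.hα h.hβ hμ0 hμ.symm hlin hqr (n := n)
    (Nat.not_even_iff_odd.1 (by rw [even_iff_two_dvd]; exact hn)) ?_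
  intro f hff
  simp only [Set.mem_insert_iff, Set.mem_singleton_iff] at hff
  rcases hff with rfl | rfl | rfl | rfl | rfl | rfl
  · rw [← hadd]
    exact form_of hF.sep hf (ds dp dq) (d5 (dd dp dq) (ds dp dr) (dd dp dr) (ds dr dq) (dd dr dq))
      (by rw [eP]; ring)
  · rw [← hsub]
    exact form_of hF.sep hf (dd dp dq) (d5 (ds dp dq) (ds dp dr) (dd dp dr) (ds dr dq) (dd dr dq))
      (by rw [eP]; ring)
  · rw [← hadd]
    exact form_of hF.sep hf (ds dp dr) (d5 (dd dp dr) (ds dp dq) (dd dp dq) (ds dr dq) (dd dr dq))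
      (by rw [eP]; ring)
  · rw [← hsub]
    exact form_of hF.sep hf (dd dp dr) (d5 (ds dp dr) (ds dp dq) (dd dp dq) (ds dr dq) (dd dr dq))
      (by rw [eP]; ring)
  · rw [← hadd]
    exact form_of hF.sep hf (ds dq dr) (d5 (dd dr dq) (ds dp dq) (dd dp dq) (ds dp dr) (dd dp dr))
      (by rw [eP]; ring)
  · rw [← hsub]
    have e : (q - r : M[X]) = C (-1) * (r - q) := by rw [C_neg, C_1]; ring
    refine form_of hF.sep hf (dd dq dr) (w := C (-1) * ((r + q) * ((p + q) * (p - q)) *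
      ((p + r) * (p - r)))) ?_ ?_
    · refine (natDegree_C_mul_le _ _).trans ?_
      exact d5 (ds dr dq) (ds dp dq) (dd dp dq) (ds dp dr) (dd dp dr)
    · rw [eP, C_neg, C_1]; ring

end tate

end Pool.Agent.N181.TC
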